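import Pool.Agent.TH117.GN.Main2

/-!
# The Tate conjecture for divisors on varieties dominated by varieties generated by abelian varieties

Over an algebraic closure of the field with `p` elements each abelian variety is isogenous to the
reduction of an abelian variety of CM type (Honda, Tate). So an abelian variety over the field with
`p ^ a` elements is modelled by `RedAV`: a finite product of CM types `(E i, Φ i)` with Weil numbers
`π i ∈ E i` that satisfy the formula of Shimura and Taniyama; its cohomology of degree `n`, with
coefficients in an algebraically closed field `Ω`, consists of the alternating `n`-forms on
`Ω ⊗ H_1`, on which the Frobenius endomorphism acts by `π`.

We consider (`IsGood`) the abelian varieties `Y` that are, over an algebraic closure, isogenous to a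
product of a supersingular abelian variety and of powers of the factors of an abelian variety `Z`
(any Newton polygons), where one of the following holds:

* the dimension of `Z` is at most five, and no two factors of `Z` form an exceptional pair: two
  non-Galois quartic CM fields with the same Galois closure, or CM fields of degrees 2 and 8, with a
  special relation between the Frobenius eigenvalues (`IsExceptionalPair`);
* the factors of `Z` (in any number) have dimension at most three, and two factors whose CM fields
  have the same Galois closure are isogenous, unless these fields are Galois over `ℚ` or one of the
  two factors is supersingular.

The class `Generated` contains the abelian varieties above, it contains the schemes whose motives are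
direct summands of finite sums of twists of motives of members, and it contains all of `Z`, `X`,
`U = X ∖ Z` if it contains two of them. The class `Spread` contains in addition all open subvarieties
of members (with arbitrary closed complements), all images of members under proper morphisms, the
varieties that are unions of a closed and an open member, and motivic direct summands.

The theorem: let `X` be a smooth projective variety of dimension `d` in the class `Spread`, for example
a variety dominated by a member of `Generated`. Then the Frobenius invariants of
`H^2(X, ℚ_ℓ(1)) = H_(2 (d - 1))(X, ℚ_ℓ(d - 1))` are spanned by classes of divisors, and the eigenvalue
one is semisimple, so the dimension of the space of divisor classes is the multiplicity of the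
eigenvalue `q` on `H^2(X, ℚ_ℓ)`.
-/

namespace Pool.Agent.TH117.Variants.DominatedVarieties

open Pool.Agent.W495.TA Pool.Agent.W495.FM Pool.Agent.TH117.GN

/-- The invariants are spanned by divisor classes, and the eigenvalue one is semisimple. -/
theorem result (p : ℕ) [Fact p.Prime] (ν : PadicAlgCl p ≃+* ℂ) (Ω : Type) [Field Ω]
    [IsAlgClosed Ω] [CharZero Ω] (V : Type) (T : Homology Ω V) (hT : IsHomology T)
    (hW : HasWeights T) (X : V) (hX : Spread T (Generated T (IsGood p ν T)) X) (d : ℕ) :
    IsOnto T X (d - 1) :=
  onto_good2 hT hW hX _

end Pool.Agent.TH117.Variants.DominatedVarieties
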